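import Mathlib

/-!
# MP_7489b4_an: second-kind discontinuities under fast Hausdorff approximation

Each of the conditions (W), (P), (V) forces a bounded measurable function to be continuous.
-/

open MeasureTheory Filter Topology
open scoped ENNReal Real

namespace Pool.Agent.Results.MP_7489b4_an.ForcedContinuity

/-- the lower envelope `min {f(x), liminf_{t → x} f(t)}` -/
noncomputable def lowEnv (f : ℝ → ℝ) (x : ℝ) : ℝ := min (f x) (liminf f (𝓝[≠] x))

/-- the upper envelope `max {f(x), limsup_{t → x} f(t)}` -/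
noncomputable def upEnv (f : ℝ → ℝ) (x : ℝ) : ℝ := max (f x) (limsup f (𝓝[≠] x))

/-- the completed graph -/
def completedGraph (f : ℝ → ℝ) : Set (ℝ × ℝ) := {p | lowEnv f p.1 ≤ p.2 ∧ p.2 ≤ upEnv f p.1}

/-- the metric `ρ_α` -/
noncomputable def rho (α : ℝ) (A B : ℝ × ℝ) : ℝ := max (α⁻¹ * |A.1 - B.1|) |A.2 - B.2|

/-- `r(α; f, g)`, the Hausdorff distance of the completed graphs with respect to `ρ_α` -/
noncomputable def hausdorffR (α : ℝ) (f g : ℝ → ℝ) : ℝ≥0∞ :=
  max (⨆ A ∈ completedGraph f, ⨅ B ∈ completedGraph g, ENNReal.ofReal (rho α A B))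
    (⨆ A ∈ completedGraph g, ⨅ B ∈ completedGraph f, ENNReal.ofReal (rho α A B))

/-- the Gauss-Weierstrass operator -/
noncomputable def opW (n : ℕ) (f : ℝ → ℝ) (x : ℝ) : ℝ :=
  √(n / π) * ∫ s, f (x + s) * Real.exp (-n * s ^ 2)

/-- the Abel-Poisson operator -/
noncomputable def opP (ρ : ℝ) (f : ℝ → ℝ) (x : ℝ) : ℝ :=
  1 / (2 * π) * ∫ s in (-π)..π, f (x + s) * ((1 - ρ ^ 2) / (1 + ρ ^ 2 - 2 * ρ * Real.cos s))

/-- the de la Vallée-Poussin operator -/
noncomputable def opV (n : ℕ) (f : ℝ → ℝ) (x : ℝ) : ℝ :=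
  (n.factorial : ℝ) ^ 2 / ((2 * n).factorial : ℝ) * (1 / (2 * π)) *
    ∫ s in (-π)..π, f (x + s) * (2 * Real.cos (s / 2)) ^ (2 * n)

/-- condition (W) -/
def CondW (α : ℝ) (f : ℝ → ℝ) : Prop :=
  limsup (fun n : ℕ => ENNReal.ofReal √n * hausdorffR α f (opW n f)) atTop < ∞

/-- condition (P) -/
def CondP (α : ℝ) (f : ℝ → ℝ) : Prop :=
  limsup (fun ρ : ℝ => hausdorffR α f (opP ρ f) / ENNReal.ofReal (1 - ρ)) (𝓝[<] 1) < ∞

/-- condition (V) -/
def CondV (α : ℝ) (f : ℝ → ℝ) : Prop :=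
  limsup (fun n : ℕ => ENNReal.ofReal √n * hausdorffR α f (opV n f)) atTop < ∞

section envelopes

variable {f : ℝ → ℝ} {B : ℝ}

lemma bdd_above (hB : ∀ x, |f x| ≤ B) (l : Filter ℝ) : IsBoundedUnder (· ≤ ·) l f :=
  ⟨B, eventually_map.mpr (Eventually.of_forall fun x => (abs_le.mp (hB x)).2)⟩

lemma bdd_below (hB : ∀ x, |f x| ≤ B) (l : Filter ℝ) : IsBoundedUnder (· ≥ ·) l f :=
  ⟨-B, eventually_map.mpr (Eventually.of_forall fun x => (abs_le.mp (hB x)).1)⟩

lemma low_le_up (f : ℝ → ℝ) (x : ℝ) : lowEnv f x ≤ upEnv f x :=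
  (min_le_left _ _).trans (le_max_left _ _)

lemma abs_upEnv_le (hB : ∀ x, |f x| ≤ B) (x : ℝ) : |upEnv f x| ≤ B := by
  rw [abs_le]
  constructor
  · exact (abs_le.mp (hB x)).1.trans (le_max_left _ _)
  · refine max_le (abs_le.mp (hB x)).2 ?_
    exact limsup_le_of_le (bdd_below hB _).isCoboundedUnder_le
      (Eventually.of_forall fun x => (abs_le.mp (hB x)).2)

lemma abs_lowEnv_le (hB : ∀ x, |f x| ≤ B) (x : ℝ) : |lowEnv f x| ≤ B := by
  rw [abs_le]
  constructor
  · refine le_min (abs_le.mp (hB x)).1 ?_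
    exact le_liminf_of_le (bdd_above hB _).isCoboundedUnder_ge
      (Eventually.of_forall fun x => (abs_le.mp (hB x)).1)
  · exact (min_le_left _ _).trans (abs_le.mp (hB x)).2

lemma near_le_up (hB : ∀ x, |f x| ≤ B) (x : ℝ) {ε : ℝ} (hε : 0 < ε) :
    ∀ᶠ t in 𝓝 x, f t ≤ upEnv f x + ε := by
  have h1 : limsup f (𝓝[≠] x) < upEnv f x + ε := by
    have := le_max_right (f x) (limsup f (𝓝[≠] x))
    unfold upEnv
    linarith
  have h2 := eventually_lt_of_limsup_lt h1 (bdd_above hB _)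
  rw [eventually_nhdsWithin_iff] at h2
  filter_upwards [h2] with t ht
  by_cases h : t = x
  · rw [h]
    have := le_max_left (f x) (limsup f (𝓝[≠] x))
    unfold upEnv
    linarith
  · exact (ht h).le

lemma low_le_near (hB : ∀ x, |f x| ≤ B) (x : ℝ) {ε : ℝ} (hε : 0 < ε) :
    ∀ᶠ t in 𝓝 x, lowEnv f x - ε ≤ f t := by
  have h1 : lowEnv f x - ε < liminf f (𝓝[≠] x) := by
    have := min_le_right (f x) (liminf f (𝓝[≠] x))
    unfold lowEnv
    linarith
  have h2 := eventually_lt_of_lt_liminf h1 (bdd_below hB _)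
  rw [eventually_nhdsWithin_iff] at h2
  filter_upwards [h2] with t ht
  by_cases h : t = x
  · rw [h]
    have := min_le_left (f x) (liminf f (𝓝[≠] x))
    unfold lowEnv
    linarith
  · exact (ht h).le

lemma exists_near_up (hB : ∀ x, |f x| ≤ B) {x y : ℝ} (h : y ≤ upEnv f x) {e : ℝ} (he : 0 < e) :
    ∃ t, |t - x| < e ∧ y - e < f t := by
  rcases le_or_gt y (f x) with h1 | h1
  · exact ⟨x, by simpa using he, by linarith⟩
  · have h2 : y ≤ limsup f (𝓝[≠] x) := by
      rcases le_max_iff.mp h with h3 | h3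
      · linarith
      · exact h3
    have h3 : ∃ᶠ t in 𝓝[≠] x, y - e < f t :=
      frequently_lt_of_lt_limsup (bdd_below hB _).isCoboundedUnder_le (by linarith)
    have h4 : ∀ᶠ t in 𝓝[≠] x, |t - x| < e := by
      refine eventually_nhdsWithin_of_eventually_nhds ?_
      exact Metric.ball_mem_nhds x he
    obtain ⟨t, ht1, ht2⟩ := (h3.and_eventually h4).exists
    exact ⟨t, ht2, ht1⟩

lemma exists_near_low (hB : ∀ x, |f x| ≤ B) {x y : ℝ} (h : lowEnv f x ≤ y) {e : ℝ} (he : 0 < e) :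
    ∃ t, |t - x| < e ∧ f t < y + e := by
  rcases le_or_gt (f x) y with h1 | h1
  · exact ⟨x, by simpa using he, by linarith⟩
  · have h2 : liminf f (𝓝[≠] x) ≤ y := by
      rcases min_le_iff.mp h with h3 | h3
      · linarith
      · exact h3
    have h3 : ∃ᶠ t in 𝓝[≠] x, f t < y + e :=
      frequently_lt_of_liminf_lt (bdd_above hB _).isCoboundedUnder_ge (by linarith)
    have h4 : ∀ᶠ t in 𝓝[≠] x, |t - x| < e := by
      refine eventually_nhdsWithin_of_eventually_nhds ?_
      exact Metric.ball_mem_nhds x he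
    obtain ⟨t, ht1, ht2⟩ := (h3.and_eventually h4).exists
    exact ⟨t, ht2, ht1⟩

lemma continuousAt_of_env (hB : ∀ x, |f x| ≤ B) {x : ℝ} (h : upEnv f x ≤ lowEnv f x) :
    ContinuousAt f x := by
  rw [ContinuousAt, Metric.tendsto_nhds]
  intro ε hε
  have e1 : f x ≤ upEnv f x := le_max_left _ _
  have e2 : lowEnv f x ≤ f x := min_le_left _ _
  filter_upwards [near_le_up hB x (half_pos hε), low_le_near hB x (half_pos hε)] with t h1 h2
  rw [Real.dist_eq, abs_lt]
  constructor <;> linarith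

/-- Points of the graph of `g` near the extreme points of the completed graph of `f` over `x`. -/
lemma exists_points {g : ℝ → ℝ} {B' : ℝ} (hg : ∀ x, |g x| ≤ B') {α : ℝ} (hα : 0 < α) {R : ℝ}
    (hR : 0 < R) (h : hausdorffR α f g < ENNReal.ofReal R) (x : ℝ) {e : ℝ} (he : 0 < e) :
    (∃ u, |u - x| < α * R + e ∧ upEnv f x - R - e < g u) ∧
      ∃ v, |v - x| < α * R + e ∧ g v < lowEnv f x + R + e := by
  have h1 : (⨆ A ∈ completedGraph f, ⨅ B ∈ completedGraph g, ENNReal.ofReal (rho α A B)) <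
      ENNReal.ofReal R := lt_of_le_of_lt (le_max_left _ _) h
  have key : ∀ A ∈ completedGraph f, ∃ B ∈ completedGraph g, |A.1 - B.1| < α * R ∧
      |A.2 - B.2| < R := by
    intro A hA
    have h2 : (⨅ B ∈ completedGraph g, ENNReal.ofReal (rho α A B)) < ENNReal.ofReal R :=
      lt_of_le_of_lt (le_iSup₂ (f := fun A (_ : A ∈ completedGraph f) =>
        ⨅ B ∈ completedGraph g, ENNReal.ofReal (rho α A B)) A hA) h1
    rw [iInf_lt_iff] at h2
    obtain ⟨B, hB⟩ := h2
    rw [iInf_lt_iff] at hB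
    obtain ⟨hB1, hB2⟩ := hB
    rw [ENNReal.ofReal_lt_ofReal_iff hR] at hB2
    have h3 : α⁻¹ * |A.1 - B.1| < R := (le_max_left _ _).trans_lt hB2
    have h4 : |A.2 - B.2| < R := (le_max_right _ _).trans_lt hB2
    refine ⟨B, hB1, ?_, h4⟩
    rwa [inv_mul_eq_div, div_lt_iff₀' hα] at h3
  constructor
  · obtain ⟨B, hB, hB1, hB2⟩ := key (x, upEnv f x) ⟨low_le_up f x, le_rfl⟩
    obtain ⟨u, hu1, hu2⟩ := exists_near_up hg hB.2 he
    refine ⟨u, ?_, ?_⟩
    · have : |u - x| ≤ |u - B.1| + |x - B.1| := by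
        rw [abs_sub_comm x]
        exact abs_sub_le _ _ _
      simp only at hB1
      linarith
    · simp only at hB2
      have := (abs_lt.mp hB2).2
      linarith
  · obtain ⟨B, hB, hB1, hB2⟩ := key (x, lowEnv f x) ⟨le_rfl, low_le_up f x⟩
    obtain ⟨u, hu1, hu2⟩ := exists_near_low hg hB.1 he
    refine ⟨u, ?_, ?_⟩
    · have : |u - x| ≤ |u - B.1| + |x - B.1| := by
        rw [abs_sub_comm x]
        exact abs_sub_le _ _ _
      simp only at hB1
      linarith
    · simp only at hB2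
      have := (abs_lt.mp hB2).1
      linarith

end envelopes

section kernels

/-- One-sided averaging estimate. -/
lemma one_side {f : ℝ → ℝ} (hfm : AEStronglyMeasurable f volume) {B : ℝ} (hB : ∀ x, |f x| ≤ B) {k : ℝ → ℝ}
    (hk0 : ∀ s, 0 ≤ k s) (hki : Integrable k) (hk1 : ∫ s, k s = 1) {M ε δ x₀ u h L c : ℝ}
    (hMB : |M| ≤ B) (hε : 0 < ε) (hloc : ∀ t, |t - x₀| < δ → f t ≤ M + ε)
    (htail : ∫ s in {s : ℝ | δ / 2 ≤ |s|}, k s ≤ ε)
    (hlow : ∀ s, |s| ≤ (L + 1) * h → c / h ≤ k s) (hu : |u - x₀| ≤ L * h)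
    (hLh : (L + 1) * h < δ / 2) (hh : 0 < h)
    (hT : M - ε ≤ ∫ s, f (u + s) * k s) :
    c / h * ∫ t in (x₀ - h)..(x₀ + h), (M + ε - f t) ≤ (2 + 2 * B) * ε := by
  have hB0 : 0 ≤ B := (abs_nonneg _).trans (hB 0)
  set φ : ℝ → ℝ := fun s => M + ε - f (u + s) with hφ
  have hfu : AEStronglyMeasurable (fun s => f (u + s)) volume :=
    hfm.comp_measurePreserving (measurePreserving_add_left volume u)
  have hφm : AEStronglyMeasurable φ volume := aestronglyMeasurable_const.sub hfu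
  have hfk : Integrable fun s => f (u + s) * k s := by
    refine Integrable.bdd_mul (c := B) hki hfu (Eventually.of_forall fun s => ?_)
    exact hB _
  have hφk : Integrable fun s => φ s * k s := by
    have : (fun s => φ s * k s) = fun s => (M + ε) * k s - f (u + s) * k s := by
      funext s; simp only [hφ]; ring
    rw [this]
    exact (hki.const_mul _).sub hfk
  have h1 : ∫ s, φ s * k s ≤ 2 * ε := by
    have : (fun s => φ s * k s) = fun s => (M + ε) * k s - f (u + s) * k s := by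
      funext s; simp only [hφ]; ring
    rw [this, integral_sub (hki.const_mul _) hfk, integral_const_mul, hk1]
    linarith
  have hms : MeasurableSet {s : ℝ | δ / 2 ≤ |s|} := measurableSet_le measurable_const measurable_abs
  have h2 := integral_add_compl hms hφk
  have h3 : -(2 * B * ε) ≤ ∫ s in {s : ℝ | δ / 2 ≤ |s|}, φ s * k s := by
    have h4 : ∫ s in {s : ℝ | δ / 2 ≤ |s|}, (-(2 * B)) * k s ≤
        ∫ s in {s : ℝ | δ / 2 ≤ |s|}, φ s * k s := by
      refine setIntegral_mono (hki.const_mul _).integrableOn hφk.integrableOn fun s => ?_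
      refine mul_le_mul_of_nonneg_right ?_ (hk0 s)
      have e1 := (abs_le.mp (hB (u + s))).2
      have e2 := (abs_le.mp hMB).1
      simp only [hφ]
      linarith
    rw [integral_const_mul] at h4
    nlinarith
  set S : Set ℝ := {s : ℝ | |u + s - x₀| ≤ h} with hS
  have hSm : MeasurableSet S := measurableSet_le
    ((measurable_id.const_add u).sub_const x₀).abs measurable_const
  have hSsub : S ⊆ {s : ℝ | δ / 2 ≤ |s|}ᶜ := by
    intro s hs
    have hs' : |u + s - x₀| ≤ h := hs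
    have : |s| ≤ |u + s - x₀| + |u - x₀| := by
      calc |s| = |(u + s - x₀) - (u - x₀)| := by congr 1; ring
        _ ≤ _ := abs_sub _ _
    show ¬ (δ / 2 ≤ |s|)
    push Not
    nlinarith
  have h5 : ∫ s in S, φ s * k s ≤ ∫ s in {s : ℝ | δ / 2 ≤ |s|}ᶜ, φ s * k s := by
    refine setIntegral_mono_set hφk.integrableOn ?_ (LE.le.eventuallyLE hSsub)
    rw [EventuallyLE, ae_restrict_iff' hms.compl]
    refine Eventually.of_forall fun s hs => ?_
    have hs' : |s| < δ / 2 := not_le.mp hs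
    have : |u + s - x₀| < δ := by
      have : |u + s - x₀| ≤ |s| + |u - x₀| := by
        calc |u + s - x₀| = |s + (u - x₀)| := by congr 1; ring
          _ ≤ _ := abs_add_le _ _
      nlinarith
    have h6 := hloc _ this
    exact mul_nonneg (by simp only [hφ]; linarith) (hk0 s)
  have hSsub2 : ∀ s ∈ S, |s| ≤ (L + 1) * h := by
    intro s hs
    have hs' : |u + s - x₀| ≤ h := hs
    have : |s| ≤ |u + s - x₀| + |u - x₀| := by
      calc |s| = |(u + s - x₀) - (u - x₀)| := by congr 1; ring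
        _ ≤ _ := abs_sub _ _
    nlinarith
  have hSIcc : S = Set.Icc (x₀ - u - h) (x₀ - u + h) := by
    ext s
    simp only [hS, Set.mem_ofPred_eq, abs_le, Set.mem_Icc]
    constructor <;> rintro ⟨a, b⟩ <;> constructor <;> linarith
  have hφS : IntegrableOn φ S := by
    rw [hSIcc]
    refine Measure.integrableOn_of_bounded (M := 2 * B + ε) (by simp) hφm ?_
    refine Eventually.of_forall fun s => ?_
    rw [Real.norm_eq_abs]
    have e1 := abs_le.mp (hB (u + s))
    have e2 := abs_le.mp hMB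
    simp only [hφ]
    rw [abs_le]
    constructor <;> linarith [e1.1, e1.2, e2.1, e2.2]
  have h7 : c / h * ∫ s in S, φ s ≤ ∫ s in S, φ s * k s := by
    rw [← integral_const_mul]
    refine setIntegral_mono_on (hφS.const_mul _) hφk.integrableOn hSm fun s hs => ?_
    have hnn : 0 ≤ φ s := by
      have hs' : |u + s - x₀| ≤ h := hs
      have h8 := hloc (u + s) (by
        have hL' : 0 ≤ (L + 1) * h := (abs_nonneg s).trans (hSsub2 s hs)
        have hL'' : 0 ≤ L * h := (abs_nonneg _).trans hu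
        nlinarith)
      simp only [hφ]; linarith
    rw [mul_comm]
    exact mul_le_mul_of_nonneg_left (hlow s (hSsub2 s hs)) hnn
  have h9 : ∫ s in S, φ s = ∫ t in (x₀ - h)..(x₀ + h), (M + ε - f t) := by
    rw [hSIcc, integral_Icc_eq_integral_Ioc, ← intervalIntegral.integral_of_le (by linarith)]
    simp only [hφ]
    rw [intervalIntegral.integral_comp_add_left (fun t => M + ε - f t)]
    congr 1 <;> ring
  rw [← h9]
  linarith

/-- The two-sided estimate: the oscillation of `f` at `x₀` is small. -/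
lemma two_side {f : ℝ → ℝ} (hfm : AEStronglyMeasurable f volume) {B : ℝ} (hB : ∀ x, |f x| ≤ B) {k : ℝ → ℝ}
    (hk0 : ∀ s, 0 ≤ k s) (hki : Integrable k) (hk1 : ∫ s, k s = 1) {M m ε δ x₀ u v h L c : ℝ}
    (hMB : |M| ≤ B) (hmB : |m| ≤ B) (hε : 0 < ε) (hloc : ∀ t, |t - x₀| < δ → f t ≤ M + ε)
    (hloc' : ∀ t, |t - x₀| < δ → m - ε ≤ f t)
    (htail : ∫ s in {s : ℝ | δ / 2 ≤ |s|}, k s ≤ ε)
    (hlow : ∀ s, |s| ≤ (L + 1) * h → c / h ≤ k s) (hu : |u - x₀| ≤ L * h) (hv : |v - x₀| ≤ L * h)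
    (hLh : (L + 1) * h < δ / 2) (hh : 0 < h) (hc : 0 < c)
    (hT : M - ε ≤ ∫ s, f (u + s) * k s) (hT' : ∫ s, f (v + s) * k s ≤ m + ε) :
    2 * c * (M - m) ≤ (4 + 4 * B) * ε := by
  have h1 := one_side hfm hB hk0 hki hk1 hMB hε hloc htail hlow hu hLh hh hT
  have h2 := one_side (f := fun t => -f t) (M := -m) (u := v) hfm.neg (fun x => by rw [abs_neg]; exact hB x)
    hk0 hki hk1 (by rwa [abs_neg]) hε (fun t ht => by linarith [hloc' t ht]) htail hlow hv hLh hh
    (by
      have : (fun s => -f (v + s) * k s) = fun s => -(f (v + s) * k s) := by funext s; ring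
      rw [this, integral_neg]
      linarith)
  have hfi : IntervalIntegrable f volume (x₀ - h) (x₀ + h) := by
    refine (intervalIntegrable_const (c := B)).mono_fun hfm.restrict ?_
    refine Eventually.of_forall fun t => ?_
    show ‖f t‖ ≤ ‖B‖
    rw [Real.norm_eq_abs, Real.norm_eq_abs]
    exact (hB t).trans (le_abs_self B)
  have e1 : ∫ t in (x₀ - h)..(x₀ + h), (M + ε - f t) =
      (M + ε) * (2 * h) - ∫ t in (x₀ - h)..(x₀ + h), f t := by
    rw [intervalIntegral.integral_sub intervalIntegrable_const hfi, intervalIntegral.integral_const]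
    simp only [smul_eq_mul]
    ring
  have e2 : ∫ t in (x₀ - h)..(x₀ + h), (-m + ε - -f t) =
      (-m + ε) * (2 * h) + ∫ t in (x₀ - h)..(x₀ + h), f t := by
    simp only [sub_neg_eq_add]
    rw [intervalIntegral.integral_add intervalIntegrable_const hfi, intervalIntegral.integral_const]
    simp only [smul_eq_mul]
    ring
  rw [e1] at h1
  rw [e2] at h2
  have e3 : c / h * ((M + ε) * (2 * h) - ∫ t in (x₀ - h)..(x₀ + h), f t) +
      c / h * ((-m + ε) * (2 * h) + ∫ t in (x₀ - h)..(x₀ + h), f t) =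
      2 * c * (M - m + 2 * ε) := by
    field_simp
    ring
  nlinarith

/-- The abstract theorem for a family of positive convolution operators with a scale. -/
theorem core {ι : Type*} {l : Filter ι} [NeBot l] {k : ι → ℝ → ℝ} {h : ι → ℝ}
    (hh : ∀ᶠ j in l, 0 < h j) (hh0 : Tendsto h l (𝓝 0)) (hk0 : ∀ᶠ j in l, ∀ s, 0 ≤ k j s)
    (hki : ∀ᶠ j in l, Integrable (k j)) (hk1 : ∀ᶠ j in l, ∫ s, k j s = 1)
    (htail : ∀ δ : ℝ, 0 < δ → Tendsto (fun j => ∫ s in {s : ℝ | δ ≤ |s|}, k j s) l (𝓝 0))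
    (hlow : ∀ C : ℝ, 0 < C → ∃ c : ℝ, 0 < c ∧ ∀ᶠ j in l, ∀ s, |s| ≤ C * h j → c / h j ≤ k j s)
    {f : ℝ → ℝ} (hfm : AEStronglyMeasurable f volume) {B : ℝ} (hB : ∀ x, |f x| ≤ B) {α : ℝ} (hα : 0 < α)
    {K : ℝ} (hK : 0 < K)
    (hr : ∀ᶠ j in l, hausdorffR α f (fun x => ∫ s, f (x + s) * k j s) <
      ENNReal.ofReal (K * h j)) : Continuous f := by
  rw [continuous_iff_continuousAt]
  intro x₀
  refine continuousAt_of_env hB ?_
  have hB0 : 0 ≤ B := (abs_nonneg _).trans (hB 0)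
  set L := α * K + 1 with hL
  have hL0 : 0 < L := by positivity
  obtain ⟨c, hc, hlow'⟩ := hlow (L + 1) (by positivity)
  -- it suffices to bound the oscillation by every positive number
  refine le_of_forall_pos_le_add fun η hη => ?_
  obtain ⟨ε, hε, hεη⟩ : ∃ ε : ℝ, 0 < ε ∧ (4 + 4 * B) * ε ≤ 2 * c * η := by
    refine ⟨2 * c * η / (4 + 4 * B), by positivity, ?_⟩
    rw [mul_div_cancel₀]
    positivity
  obtain ⟨δ, hδ, hδ1⟩ : ∃ δ : ℝ, 0 < δ ∧ ∀ t, |t - x₀| < δ →
      (f t ≤ upEnv f x₀ + ε ∧ lowEnv f x₀ - ε ≤ f t) := by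
    have := (near_le_up hB x₀ hε).and (low_le_near hB x₀ hε)
    rw [Metric.eventually_nhds_iff] at this
    obtain ⟨δ, hδ, h1⟩ := this
    exact ⟨δ, hδ, fun t ht => h1 (by rwa [Real.dist_eq])⟩
  have ev1 : ∀ᶠ j in l, ∫ s in {s : ℝ | δ / 2 ≤ |s|}, k j s < ε :=
    (htail (δ / 2) (half_pos hδ)).eventually (gt_mem_nhds hε)
  have ev2 : ∀ᶠ j in l, (L + 1) * h j < δ / 2 := by
    have : Tendsto (fun j => (L + 1) * h j) l (𝓝 0) := by simpa using hh0.const_mul (L + 1)
    exact this.eventually (gt_mem_nhds (half_pos hδ))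
  have ev3 : ∀ᶠ j in l, (K + 1) * h j < ε := by
    have : Tendsto (fun j => (K + 1) * h j) l (𝓝 0) := by simpa using hh0.const_mul (K + 1)
    exact this.eventually (gt_mem_nhds hε)
  obtain ⟨j, h1, h2, h3, h4, h5, h6, h7, h8, h9⟩ := (ev1.and (ev2.and (ev3.and (hh.and
    (hk0.and (hki.and (hk1.and (hlow'.and hr)))))))).exists
  have hg : ∀ x, |∫ s, f (x + s) * k j s| ≤ B := by
    intro x
    calc |∫ s, f (x + s) * k j s| ≤ ∫ s, B * k j s := by
          rw [← Real.norm_eq_abs]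
          refine norm_integral_le_of_norm_le (h6.const_mul B) (Eventually.of_forall fun s => ?_)
          rw [norm_mul, Real.norm_eq_abs, Real.norm_of_nonneg (h5 s)]
          exact mul_le_mul_of_nonneg_right (hB _) (h5 s)
      _ = B := by rw [integral_const_mul, h7, mul_one]
  obtain ⟨⟨u, hu1, hu2⟩, ⟨v, hv1, hv2⟩⟩ := exists_points hg hα (by positivity : 0 < K * h j) h9 x₀ h4
  have e1 : α * (K * h j) + h j = L * h j := by rw [hL]; ring
  rw [e1] at hu1 hv1
  have := two_side hfm hB h5 h6 h7 (M := upEnv f x₀) (m := lowEnv f x₀) (ε := ε) (δ := δ)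
    (abs_upEnv_le hB x₀) (abs_lowEnv_le hB x₀) hε (fun t ht => (hδ1 t ht).1)
    (fun t ht => (hδ1 t ht).2) h1.le h8 hu1.le hv1.le h2 h4 hc (by nlinarith) (by nlinarith)
  nlinarith

end kernels

section gauss

/-- the Gauss-Weierstrass kernel -/
noncomputable def kW (n : ℕ) (s : ℝ) : ℝ := √(n / π) * Real.exp (-n * s ^ 2)

lemma opW_eq (n : ℕ) (f : ℝ → ℝ) (x : ℝ) : opW n f x = ∫ s, f (x + s) * kW n s := by
  unfold opW kW
  rw [← integral_const_mul]
  congr 1
  funext s
  ring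

lemma exists_bound_sqrt {r : ℕ → ℝ≥0∞} (h : limsup (fun n : ℕ => ENNReal.ofReal √n * r n) atTop < ∞) :
    ∃ K : ℝ, 0 < K ∧ ∀ᶠ n : ℕ in atTop, r n < ENNReal.ofReal (K * (√n)⁻¹) := by
  obtain ⟨K, hK1, hK2⟩ := exists_between h
  have hK0 : 0 < K.toReal := ENNReal.toReal_pos (bot_le.trans_lt hK1).ne' hK2.ne
  refine ⟨K.toReal, hK0, ?_⟩
  filter_upwards [eventually_lt_of_limsup_lt hK1, eventually_gt_atTop 0] with n hn hn0
  have hs : 0 < √(n : ℝ) := Real.sqrt_pos.mpr (by exact_mod_cast hn0)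
  rw [ENNReal.ofReal_mul hK0.le, ENNReal.ofReal_toReal hK2.ne, ENNReal.ofReal_inv_of_pos hs,
    ← div_eq_mul_inv, ENNReal.lt_div_iff_mul_lt (Or.inl (by simpa using hs))
      (Or.inl ENNReal.ofReal_ne_top), mul_comm]
  exact hn

lemma tendsto_inv_sqrt : Tendsto (fun n : ℕ => (√(n : ℝ))⁻¹) atTop (𝓝 0) :=
  tendsto_inv_atTop_zero.comp (Real.tendsto_sqrt_atTop.comp tendsto_natCast_atTop_atTop)

lemma integrable_gauss {b : ℝ} (hb : 0 < b) : Integrable fun s : ℝ => Real.exp (-b * s ^ 2) :=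
  integrable_exp_neg_mul_sq hb

theorem caseW {f : ℝ → ℝ} (hfm : AEStronglyMeasurable f volume) {B : ℝ} (hB : ∀ x, |f x| ≤ B) {α : ℝ} (hα : 0 < α)
    (h : CondW α f) : Continuous f := by
  obtain ⟨K, hK, hKr⟩ := exists_bound_sqrt h
  refine core (l := atTop) (k := kW) (h := fun n => (√(n : ℝ))⁻¹) ?_ tendsto_inv_sqrt ?_ ?_ ?_ ?_ ?_
    hfm hB hα hK ?_
  · filter_upwards [eventually_gt_atTop 0] with n hn
    have : (0 : ℝ) < n := by exact_mod_cast hn
    positivity
  · exact Eventually.of_forall fun n s => by unfold kW; positivity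
  · filter_upwards [eventually_gt_atTop 0] with n hn
    have : (0 : ℝ) < n := by exact_mod_cast hn
    exact (integrable_gauss this).const_mul _
  · filter_upwards [eventually_gt_atTop 0] with n hn
    have hn' : (0 : ℝ) < n := by exact_mod_cast hn
    unfold kW
    rw [integral_const_mul, integral_gaussian, ← Real.sqrt_mul (by positivity)]
    rw [div_mul_div_cancel₀ Real.pi_ne_zero, div_self hn'.ne', Real.sqrt_one]
  · intro δ hδ
    have hlim : Tendsto (fun n : ℕ => √2 * Real.exp (-(δ ^ 2 / 2) * n)) atTop (𝓝 0) := by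
      have h1 : Tendsto (fun n : ℕ => -(δ ^ 2 / 2) * (n : ℝ)) atTop atBot :=
        tendsto_natCast_atTop_atTop.const_mul_atTop_of_neg (by
          have : 0 < δ ^ 2 / 2 := by positivity
          linarith)
      simpa using (Real.tendsto_exp_atBot.comp h1).const_mul √2
    refine squeeze_zero' (Eventually.of_forall fun n => ?_) ?_ hlim
    · exact integral_nonneg fun s => by unfold kW; positivity
    · filter_upwards [eventually_gt_atTop 0] with n hn
      have hn' : (0 : ℝ) < n := by exact_mod_cast hn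
      have hms : MeasurableSet {s : ℝ | δ ≤ |s|} := measurableSet_le measurable_const measurable_abs
      have hint : Integrable fun s : ℝ => √(n / π) * Real.exp (-(δ ^ 2 / 2) * n) *
          Real.exp (-(n / 2 : ℝ) * s ^ 2) := (integrable_gauss (by positivity)).const_mul _
      calc ∫ s in {s : ℝ | δ ≤ |s|}, kW n s
          ≤ ∫ s in {s : ℝ | δ ≤ |s|}, √(n / π) * Real.exp (-(δ ^ 2 / 2) * n) *
            Real.exp (-(n / 2 : ℝ) * s ^ 2) := by
            refine setIntegral_mono_on (((integrable_gauss hn').const_mul _).integrableOn)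
              hint.integrableOn hms fun s hs => ?_
            unfold kW
            rw [mul_assoc, ← Real.exp_add]
            refine mul_le_mul_of_nonneg_left ?_ (Real.sqrt_nonneg _)
            rw [Real.exp_le_exp]
            have hs' : δ ^ 2 ≤ s ^ 2 := by
              rw [← sq_abs s]
              exact pow_le_pow_left₀ hδ.le hs 2
            nlinarith
        _ ≤ ∫ s, √(n / π) * Real.exp (-(δ ^ 2 / 2) * n) * Real.exp (-(n / 2 : ℝ) * s ^ 2) :=
            setIntegral_le_integral hint (Eventually.of_forall fun s => by positivity)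
        _ = √2 * Real.exp (-(δ ^ 2 / 2) * n) := by
            rw [integral_const_mul, integral_gaussian]
            have : √(n / π) * √(π / (n / 2)) = √2 := by
              rw [← Real.sqrt_mul (by positivity)]
              congr 1
              field_simp
            calc √(n / π) * Real.exp (-(δ ^ 2 / 2) * n) * √(π / (n / 2))
                = (√(n / π) * √(π / (n / 2))) * Real.exp (-(δ ^ 2 / 2) * n) := by ring
              _ = _ := by rw [this]
  · intro C hC
    refine ⟨(√π)⁻¹ * Real.exp (-C ^ 2), by positivity, ?_⟩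
    filter_upwards [eventually_gt_atTop 0] with n hn s hs
    have hn' : (0 : ℝ) < n := by exact_mod_cast hn
    unfold kW
    rw [Real.sqrt_div hn'.le, div_inv_eq_mul]
    have h1 : n * s ^ 2 ≤ C ^ 2 := by
      have h2 : |s| ^ 2 ≤ (C * (√(n : ℝ))⁻¹) ^ 2 := pow_le_pow_left₀ (abs_nonneg s) hs 2
      rw [sq_abs, mul_pow, inv_pow, Real.sq_sqrt hn'.le] at h2
      calc n * s ^ 2 ≤ n * (C ^ 2 * (n : ℝ)⁻¹) := mul_le_mul_of_nonneg_left h2 hn'.le
        _ = C ^ 2 := by field_simp
    have h3 : Real.exp (-C ^ 2) ≤ Real.exp (-n * s ^ 2) := by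
      rw [Real.exp_le_exp]
      linarith
    calc (√π)⁻¹ * Real.exp (-C ^ 2) * √n = √n / √π * Real.exp (-C ^ 2) := by ring
      _ ≤ _ := mul_le_mul_of_nonneg_left h3 (by positivity)
  · filter_upwards [hKr] with n hn
    have : opW n f = fun x => ∫ s, f (x + s) * kW n s := funext fun x => opW_eq n f x
    rwa [this] at hn

end gauss

section periodicKernels

/-- a kernel on `(-π, π]` extended by zero -/
noncomputable def trunc (p : ℝ → ℝ) : ℝ → ℝ := (Set.Ioc (-π) π).indicator p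

lemma trunc_integral (c : ℝ) (p f : ℝ → ℝ) (x : ℝ) :
    c * ∫ s in (-π)..π, f (x + s) * p s = ∫ s, f (x + s) * trunc (fun s => c * p s) s := by
  rw [intervalIntegral.integral_of_le (by linarith [Real.pi_pos]), ← integral_const_mul,
    ← integral_indicator measurableSet_Ioc]
  congr 1
  funext s
  unfold trunc
  by_cases hs : s ∈ Set.Ioc (-π) π
  · rw [Set.indicator_of_mem hs, Set.indicator_of_mem hs]; ring
  · rw [Set.indicator_of_notMem hs, Set.indicator_of_notMem hs, mul_zero]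

lemma trunc_integrable {p : ℝ → ℝ} (hp : Continuous p) : Integrable (trunc p) := by
  unfold trunc
  rw [integrable_indicator_iff measurableSet_Ioc]
  exact (hp.integrableOn_Icc).mono_set Set.Ioc_subset_Icc_self

lemma trunc_mass (p : ℝ → ℝ) : ∫ s, trunc p s = ∫ s in (-π)..π, p s := by
  unfold trunc
  rw [integral_indicator measurableSet_Ioc,
    intervalIntegral.integral_of_le (by linarith [Real.pi_pos])]

lemma trunc_nonneg {p : ℝ → ℝ} (hp : ∀ s ∈ Set.Ioc (-π) π, 0 ≤ p s) (s : ℝ) : 0 ≤ trunc p s :=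
  Set.indicator_nonneg hp s

/-- the tail integral is at most `2π` times the supremum of the kernel on the tail -/
lemma trunc_tail {p : ℝ → ℝ} (hp : Continuous p) {δ b : ℝ} (hb : 0 ≤ b)
    (h : ∀ s ∈ Set.Ioc (-π) π, δ ≤ |s| → p s ≤ b) :
    ∫ s in {s : ℝ | δ ≤ |s|}, trunc p s ≤ 2 * π * b := by
  have hms : MeasurableSet {s : ℝ | δ ≤ |s|} := measurableSet_le measurable_const measurable_abs
  have hint : Integrable (trunc fun _ => b) := trunc_integrable continuous_const
  calc ∫ s in {s : ℝ | δ ≤ |s|}, trunc p s ≤ ∫ s in {s : ℝ | δ ≤ |s|}, trunc (fun _ => b) s := by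
        refine setIntegral_mono_on (trunc_integrable hp).integrableOn hint.integrableOn hms
          fun s hs => ?_
        unfold trunc
        by_cases h1 : s ∈ Set.Ioc (-π) π
        · rw [Set.indicator_of_mem h1, Set.indicator_of_mem h1]
          exact h s h1 hs
        · rw [Set.indicator_of_notMem h1, Set.indicator_of_notMem h1]
    _ ≤ ∫ s, trunc (fun _ => b) s :=
        setIntegral_le_integral hint (Eventually.of_forall fun s => trunc_nonneg (fun _ _ => hb) s)
    _ = 2 * π * b := by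
        rw [trunc_mass, intervalIntegral.integral_const, smul_eq_mul]
        ring

end periodicKernels

section poisson

/-- the Poisson kernel -/
noncomputable def pK (ρ s : ℝ) : ℝ :=
  1 / (2 * π) * ((1 - ρ ^ 2) / (1 + ρ ^ 2 - 2 * ρ * Real.cos s))

lemma denom_eq (ρ s : ℝ) : 1 + ρ ^ 2 - 2 * ρ * Real.cos s =
    (1 - ρ) ^ 2 + 2 * ρ * (1 - Real.cos s) := by ring

lemma denom_pos {ρ : ℝ} (h0 : 0 < ρ) (h1 : ρ < 1) (s : ℝ) :
    0 < 1 + ρ ^ 2 - 2 * ρ * Real.cos s := by
  rw [denom_eq]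
  have h2 : 0 ≤ 2 * ρ * (1 - Real.cos s) :=
    mul_nonneg (by linarith) (by linarith [Real.cos_le_one s])
  have h3 : 0 < (1 - ρ) ^ 2 := by
    have : 0 < 1 - ρ := by linarith
    positivity
  linarith

lemma pK_continuous {ρ : ℝ} (h0 : 0 < ρ) (h1 : ρ < 1) : Continuous (pK ρ) := by
  unfold pK
  exact continuous_const.mul (continuous_const.div (by fun_prop) fun s => (denom_pos h0 h1 s).ne')

lemma pK_nonneg {ρ : ℝ} (h0 : 0 < ρ) (h1 : ρ < 1) (s : ℝ) : 0 ≤ pK ρ s := by
  unfold pK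
  have := denom_pos h0 h1 s
  have h3 : 0 ≤ 1 - ρ ^ 2 := by nlinarith
  positivity

lemma pK_mass {ρ : ℝ} (h0 : 0 < ρ) (h1 : ρ < 1) : ∫ s in (-π)..π, pK ρ s = 1 := by
  have hf : DiffContOnCl ℂ (fun _ : ℂ => (1 : ℂ)) (Metric.ball 0 1) := diffContOnCl_const
  have hw : (ρ : ℂ) ∈ Metric.ball (0 : ℂ) 1 := by
    rw [mem_ball_zero_iff, Complex.norm_real, Real.norm_of_nonneg h0.le]
    exact h1
  have h := DiffContOnCl.circleAverage_poissonKernel_smul' hf hw
  rw [Real.circleAverage_def] at h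
  have hpt : ∀ θ : ℝ, ((‖circleMap 0 1 θ - 0‖ ^ 2 - ‖(ρ : ℂ) - 0‖ ^ 2) /
      ‖circleMap 0 1 θ - 0 - ((ρ : ℂ) - 0)‖ ^ 2) • (1 : ℂ) = ((2 * π * pK ρ θ : ℝ) : ℂ) := by
    intro θ
    have e1 : ‖circleMap 0 1 θ - 0‖ = 1 := by simp [circleMap]
    have e2 : ‖(ρ : ℂ) - 0‖ ^ 2 = ρ ^ 2 := by
      rw [sub_zero, Complex.norm_real, Real.norm_eq_abs, sq_abs]
    have e3 : ‖circleMap 0 1 θ - 0 - ((ρ : ℂ) - 0)‖ ^ 2 = 1 + ρ ^ 2 - 2 * ρ * Real.cos θ := by
      rw [sub_zero, sub_zero, ← Complex.normSq_eq_norm_sq, Complex.normSq_apply]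
      simp only [circleMap, Complex.sub_re, Complex.sub_im, Complex.add_re, Complex.add_im]
      rw [Complex.ofReal_one, one_mul, Complex.exp_ofReal_mul_I_re, Complex.exp_ofReal_mul_I_im]
      simp only [Complex.zero_re, Complex.zero_im, Complex.ofReal_re, Complex.ofReal_im]
      nlinarith [Real.sin_sq_add_cos_sq θ]
    rw [e1, e2, e3]
    unfold pK
    rw [Complex.real_smul, mul_one]
    congr 1
    have := Real.pi_pos
    field_simp
  simp only [hpt] at h
  rw [intervalIntegral.integral_ofReal, intervalIntegral.integral_const_mul, Complex.real_smul,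
    ← Complex.ofReal_mul] at h
  have h2 : (2 * π)⁻¹ * (2 * π * ∫ θ in (0 : ℝ)..2 * π, pK ρ θ) = 1 := by exact_mod_cast h
  rw [inv_mul_cancel_left₀ (by positivity)] at h2
  have hper : Function.Periodic (pK ρ) (2 * π) := by
    intro s
    unfold pK
    rw [Real.cos_add_two_pi]
  have h3 := hper.intervalIntegral_add_eq (-π) 0
  rw [zero_add, show -π + 2 * π = π by ring] at h3
  rw [h3, h2]

theorem caseP {f : ℝ → ℝ} (hfm : AEStronglyMeasurable f volume) {B : ℝ} (hB : ∀ x, |f x| ≤ B) {α : ℝ} (hα : 0 < α)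
    (h : CondP α f) : Continuous f := by
  obtain ⟨K, hK1, hK2⟩ := exists_between h
  have hK0 : 0 < K.toReal := ENNReal.toReal_pos (bot_le.trans_lt hK1).ne' hK2.ne
  have hpos : ∀ᶠ ρ : ℝ in 𝓝[<] 1, 0 < ρ := by
    refine eventually_nhdsWithin_of_eventually_nhds ?_
    exact lt_mem_nhds one_pos
  have hlt : ∀ᶠ ρ : ℝ in 𝓝[<] 1, ρ < 1 := self_mem_nhdsWithin
  have hlim0 : Tendsto (fun ρ : ℝ => 1 - ρ) (𝓝[<] 1) (𝓝 0) := by
    have : Tendsto (fun ρ : ℝ => 1 - ρ) (𝓝 1) (𝓝 (1 - 1)) := tendsto_const_nhds.sub tendsto_id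
    rw [sub_self] at this
    exact this.mono_left nhdsWithin_le_nhds
  refine core (l := 𝓝[<] (1 : ℝ)) (k := fun ρ => trunc (pK ρ)) (h := fun ρ => 1 - ρ) ?_ hlim0
    ?_ ?_ ?_ ?_ ?_ hfm hB hα hK0 ?_
  · filter_upwards [hlt] with ρ hρ
    linarith
  · filter_upwards [hpos, hlt] with ρ h0 h1 s
    exact trunc_nonneg (fun s _ => pK_nonneg h0 h1 s) s
  · filter_upwards [hpos, hlt] with ρ h0 h1
    exact trunc_integrable (pK_continuous h0 h1)
  · filter_upwards [hpos, hlt] with ρ h0 h1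
    rw [trunc_mass, pK_mass h0 h1]
  · intro δ hδ
    have hlim : Tendsto (fun ρ : ℝ => (1 - ρ ^ 2) / (4 * ρ * δ ^ 2 / π ^ 2)) (𝓝[<] 1) (𝓝 0) := by
      have h1 : Tendsto (fun ρ : ℝ => (1 - ρ ^ 2) / (4 * ρ * δ ^ 2 / π ^ 2)) (𝓝 1)
          (𝓝 ((1 - 1 ^ 2) / (4 * 1 * δ ^ 2 / π ^ 2))) := by
        refine Tendsto.div ?_ ?_ (by positivity)
        · exact (continuous_const.sub (continuous_pow 2)).tendsto 1
        · have : Continuous fun ρ : ℝ => 4 * ρ * δ ^ 2 / π ^ 2 := by fun_prop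
          exact this.tendsto 1
      rw [one_pow, sub_self, zero_div] at h1
      exact h1.mono_left nhdsWithin_le_nhds
    refine squeeze_zero' ?_ ?_ hlim
    · filter_upwards [hpos, hlt] with ρ h0 h1
      exact integral_nonneg fun s => trunc_nonneg (fun s _ => pK_nonneg h0 h1 s) s
    · filter_upwards [hpos, hlt] with ρ h0 h1
      have hnum : 0 ≤ 1 - ρ ^ 2 := by nlinarith
      have hb : (0 : ℝ) ≤ 1 / (2 * π) * ((1 - ρ ^ 2) / (4 * ρ * δ ^ 2 / π ^ 2)) := by positivity
      refine (trunc_tail (pK_continuous h0 h1) hb fun s hs hsδ => ?_).trans (le_of_eq ?_)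
      · unfold pK
        refine mul_le_mul_of_nonneg_left ?_ (by positivity)
        refine div_le_div_of_nonneg_left hnum (by positivity) ?_
        rw [denom_eq]
        have h2 : |s| ≤ π := abs_le.mpr ⟨hs.1.le, hs.2⟩
        have h3 := Real.cos_le_one_sub_mul_cos_sq h2
        have h4 : δ ^ 2 ≤ s ^ 2 := by
          rw [← sq_abs s]
          exact pow_le_pow_left₀ hδ.le hsδ 2
        have h5 : 2 / π ^ 2 * δ ^ 2 ≤ 1 - Real.cos s := by
          have : 2 / π ^ 2 * δ ^ 2 ≤ 2 / π ^ 2 * s ^ 2 := mul_le_mul_of_nonneg_left h4 (by positivity)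
          linarith
        calc 4 * ρ * δ ^ 2 / π ^ 2 = 2 * ρ * (2 / π ^ 2 * δ ^ 2) := by ring
          _ ≤ 2 * ρ * (1 - Real.cos s) := mul_le_mul_of_nonneg_left h5 (by linarith)
          _ ≤ _ := by
            have := sq_nonneg (1 - ρ)
            linarith
      · have := Real.pi_pos
        field_simp
  · intro C hC
    refine ⟨1 / (2 * π * (1 + C ^ 2)), by positivity, ?_⟩
    have hsmall : ∀ᶠ ρ : ℝ in 𝓝[<] 1, C * (1 - ρ) < π := by
      have : Tendsto (fun ρ : ℝ => C * (1 - ρ)) (𝓝[<] 1) (𝓝 0) := by simpa using hlim0.const_mul C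
      exact this.eventually (gt_mem_nhds Real.pi_pos)
    filter_upwards [hpos, hlt, hsmall] with ρ h0 h1 h2 s hs
    have h1ρ : 0 < 1 - ρ := by linarith
    have hsπ : |s| < π := hs.trans_lt h2
    have hmem : s ∈ Set.Ioc (-π) π := ⟨(abs_lt.mp hsπ).1, (abs_lt.mp hsπ).2.le⟩
    unfold trunc
    rw [Set.indicator_of_mem hmem]
    unfold pK
    have hs2 : s ^ 2 ≤ (C * (1 - ρ)) ^ 2 := by
      rw [← sq_abs s]
      exact pow_le_pow_left₀ (abs_nonneg s) hs 2
    have hcos := Real.one_sub_sq_div_two_le_cos (x := s)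
    have hden : 1 + ρ ^ 2 - 2 * ρ * Real.cos s ≤ (1 - ρ) ^ 2 * (1 + C ^ 2) := by
      rw [denom_eq]
      have h3 : 2 * ρ * (1 - Real.cos s) ≤ 2 * ρ * (s ^ 2 / 2) :=
        mul_le_mul_of_nonneg_left (by linarith) (by linarith)
      have h4 : ρ * s ^ 2 ≤ 1 * s ^ 2 := mul_le_mul_of_nonneg_right h1.le (sq_nonneg s)
      nlinarith
    have h5 : (1 - ρ ^ 2) / ((1 - ρ) ^ 2 * (1 + C ^ 2)) ≤
        (1 - ρ ^ 2) / (1 + ρ ^ 2 - 2 * ρ * Real.cos s) :=
      div_le_div_of_nonneg_left (by nlinarith) (denom_pos h0 h1 s) hden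
    have h6 : 1 / ((1 - ρ) * (1 + C ^ 2)) ≤ (1 - ρ ^ 2) / ((1 - ρ) ^ 2 * (1 + C ^ 2)) := by
      rw [div_le_div_iff₀ (by positivity) (by positivity)]
      have : 0 ≤ (1 - ρ) ^ 2 * (1 + C ^ 2) * ρ := by positivity
      nlinarith
    calc 1 / (2 * π * (1 + C ^ 2)) / (1 - ρ) = 1 / (2 * π) * (1 / ((1 - ρ) * (1 + C ^ 2))) := by
          field_simp
      _ ≤ _ := mul_le_mul_of_nonneg_left (h6.trans h5) (by positivity)
  · filter_upwards [eventually_lt_of_limsup_lt hK1, hlt] with ρ hρ h1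
    have h1ρ : 0 < 1 - ρ := by linarith
    have he : opP ρ f = fun x => ∫ s, f (x + s) * trunc (pK ρ) s := by
      funext x
      unfold opP
      rw [trunc_integral]
      rfl
    rw [he, ENNReal.div_lt_iff (Or.inl (by simpa using h1ρ)) (Or.inl ENNReal.ofReal_ne_top)] at hρ
    rw [ENNReal.ofReal_mul hK0.le, ENNReal.ofReal_toReal hK2.ne]
    exact hρ

end poisson

section vallee

/-- the normalising factor `(n!)² / (2n)! / (2π)` -/
noncomputable def cV (n : ℕ) : ℝ :=
  (n.factorial : ℝ) ^ 2 / ((2 * n).factorial : ℝ) * (1 / (2 * π))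

/-- the de la Vallée-Poussin kernel -/
noncomputable def kV (n : ℕ) (s : ℝ) : ℝ := cV n * (2 * Real.cos (s / 2)) ^ (2 * n)

lemma cV_pos (n : ℕ) : 0 < cV n := by
  unfold cV
  have h1 : (0 : ℝ) < n.factorial := by exact_mod_cast n.factorial_pos
  have h2 : (0 : ℝ) < (2 * n).factorial := by exact_mod_cast (2 * n).factorial_pos
  positivity

lemma prod_eq (n : ℕ) : ∏ i ∈ Finset.range n, (2 * (i : ℝ) + 1) / (2 * i + 2) =
    ((2 * n).factorial : ℝ) / (4 ^ n * (n.factorial : ℝ) ^ 2) := by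
  induction n with
  | zero => simp
  | succ n ih =>
    rw [Finset.prod_range_succ, ih, show 2 * (n + 1) = 2 * n + 1 + 1 by ring, Nat.factorial_succ,
      Nat.factorial_succ, Nat.factorial_succ]
    push_cast
    have h1 : (n.factorial : ℝ) ≠ 0 := by exact_mod_cast n.factorial_ne_zero
    have h2 : (n : ℝ) + 1 ≠ 0 := by positivity
    field_simp
    ring

lemma cos_mass (n : ℕ) : ∫ s in (-π)..π, Real.cos (s / 2) ^ (2 * n) =
    2 * π * (((2 * n).factorial : ℝ) / (4 ^ n * (n.factorial : ℝ) ^ 2)) := by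
  have h1 : ∫ s in (-π)..π, Real.cos (s / 2) ^ (2 * n) =
      2 * ∫ u in (-π / 2)..(π / 2), Real.cos u ^ (2 * n) := by
    rw [intervalIntegral.integral_comp_div (fun u => Real.cos u ^ (2 * n)) two_ne_zero, smul_eq_mul]
  have h2 : ∫ u in (-π / 2)..(π / 2), Real.cos u ^ (2 * n) =
      ∫ v in (0 : ℝ)..π, Real.sin v ^ (2 * n) := by
    have h3 : ∀ v : ℝ, Real.sin v ^ (2 * n) = Real.cos (v - π / 2) ^ (2 * n) := by
      intro v; rw [Real.cos_sub_pi_div_two]
    simp only [h3]
    rw [intervalIntegral.integral_comp_sub_right (fun u => Real.cos u ^ (2 * n))]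
    congr 1 <;> ring
  rw [h1, h2, integral_sin_pow_even, prod_eq]
  ring

lemma kV_continuous (n : ℕ) : Continuous (kV n) := by
  unfold kV
  fun_prop

lemma kV_nonneg (n : ℕ) (s : ℝ) : 0 ≤ kV n s := by
  unfold kV
  rw [pow_mul]
  have := cV_pos n
  positivity

lemma kV_mass (n : ℕ) : ∫ s in (-π)..π, kV n s = 1 := by
  unfold kV
  simp only [mul_pow]
  rw [intervalIntegral.integral_const_mul, intervalIntegral.integral_const_mul, cos_mass]
  unfold cV
  have h1 : (n.factorial : ℝ) ≠ 0 := by exact_mod_cast n.factorial_ne_zero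
  have h2 : ((2 * n).factorial : ℝ) ≠ 0 := by exact_mod_cast (2 * n).factorial_ne_zero
  have h3 : (2 : ℝ) ^ (2 * n) = 4 ^ n := by rw [pow_mul]; norm_num
  rw [h3]
  have := Real.pi_pos
  field_simp

lemma cos_half_bounds {s : ℝ} (hs : s ∈ Set.Ioc (-π) π) :
    0 ≤ Real.cos (s / 2) ∧ Real.cos (s / 2) ≤ Real.exp (-(s ^ 2 / (2 * π ^ 2))) := by
  have hπ := Real.pi_pos
  constructor
  · exact Real.cos_nonneg_of_mem_Icc ⟨by linarith [hs.1], by linarith [hs.2]⟩
  · have h2 : |s / 2| ≤ π := by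
      rw [abs_le]
      constructor <;> linarith [hs.1, hs.2]
    refine (Real.cos_le_one_sub_mul_cos_sq h2).trans ?_
    have h3 := Real.add_one_le_exp (-(s ^ 2 / (2 * π ^ 2)))
    refine le_trans (le_of_eq ?_) h3
    field_simp
    ring

/-- an upper bound for the kernel -/
lemma kV_le (n : ℕ) {s : ℝ} (hs : s ∈ Set.Ioc (-π) π) :
    kV n s ≤ cV n * 4 ^ n * Real.exp (-(n / π ^ 2) * s ^ 2) := by
  unfold kV
  rw [mul_assoc, mul_pow, pow_mul 2 2 n]
  refine mul_le_mul_of_nonneg_left ?_ (cV_pos n).le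
  norm_num
  refine (pow_le_pow_left₀ (cos_half_bounds hs).1 (cos_half_bounds hs).2 (2 * n)).trans ?_
  rw [← Real.exp_nat_mul]
  refine le_of_eq ?_
  congr 1
  push_cast
  have := Real.pi_pos
  field_simp

/-- `4^n (n!)²/(2n)!/(2π) ≥ √n / π^{3/2}` -/
lemma cV_ge {n : ℕ} (hn : 0 < n) : √n / (π * √π) ≤ cV n * 4 ^ n := by
  have hn' : (0 : ℝ) < n := by exact_mod_cast hn
  have hπ := Real.pi_pos
  have hint : Integrable fun s : ℝ => cV n * 4 ^ n * Real.exp (-(n / π ^ 2) * s ^ 2) :=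
    (integrable_gauss (by positivity)).const_mul _
  have h1 : (1 : ℝ) ≤ ∫ s : ℝ, cV n * 4 ^ n * Real.exp (-(n / π ^ 2) * s ^ 2) := by
    rw [← kV_mass n, ← trunc_mass]
    refine integral_mono (trunc_integrable (kV_continuous n)) hint fun s => ?_
    unfold trunc
    by_cases hs : s ∈ Set.Ioc (-π) π
    · rw [Set.indicator_of_mem hs]
      exact kV_le n hs
    · rw [Set.indicator_of_notMem hs]
      have := cV_pos n
      positivity
  rw [integral_const_mul, integral_gaussian] at h1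
  have h2 : √(π / (n / π ^ 2)) = π * √π / √n := by
    rw [show π / (n / π ^ 2) = π ^ 2 * π / n by field_simp, Real.sqrt_div (by positivity),
      Real.sqrt_mul (by positivity), Real.sqrt_sq hπ.le]
  rw [h2] at h1
  have h3 : 0 < √(n : ℝ) := Real.sqrt_pos.mpr hn'
  have h4 : 0 < √π := Real.sqrt_pos.mpr hπ
  rw [div_le_iff₀ (by positivity)]
  rw [mul_div_assoc', le_div_iff₀ h3, one_mul] at h1
  exact h1

/-- `4^n (n!)²/(2n)!/(2π) ≤ n` -/
lemma cV_le {n : ℕ} (hn : 0 < n) : cV n * 4 ^ n ≤ n := by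
  have hn' : (0 : ℝ) < n := by exact_mod_cast hn
  have h := Nat.four_pow_le_two_mul_self_mul_centralBinom n hn
  have h' : (4 : ℝ) ^ n ≤ 2 * n * n.centralBinom := by exact_mod_cast h
  have h1 : (0 : ℝ) < n.factorial := by exact_mod_cast n.factorial_pos
  have h2 : (0 : ℝ) < (2 * n).factorial := by exact_mod_cast (2 * n).factorial_pos
  have h3 : (n.centralBinom : ℝ) * (n.factorial : ℝ) ^ 2 = (2 * n).factorial := by
    have := Nat.choose_mul_factorial_mul_factorial (n := 2 * n) (k := n) (by omega)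
    rw [show 2 * n - n = n by omega] at this
    rw [Nat.centralBinom]
    rw [← this]
    push_cast
    ring
  unfold cV
  have hπ : (1 : ℝ) ≤ π := by linarith [Real.pi_gt_three]
  calc (n.factorial : ℝ) ^ 2 / ((2 * n).factorial : ℝ) * (1 / (2 * π)) * 4 ^ n
      ≤ (n.factorial : ℝ) ^ 2 / ((2 * n).factorial : ℝ) * (1 / (2 * π)) *
        (2 * n * n.centralBinom) := mul_le_mul_of_nonneg_left h' (by positivity)
    _ = n / π := by
        rw [← h3]
        have h4 : (n.centralBinom : ℝ) ≠ 0 := by exact_mod_cast n.centralBinom_ne_zero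
        field_simp
    _ ≤ n := div_le_self hn'.le hπ

theorem caseV {f : ℝ → ℝ} (hfm : AEStronglyMeasurable f volume) {B : ℝ} (hB : ∀ x, |f x| ≤ B) {α : ℝ} (hα : 0 < α)
    (h : CondV α f) : Continuous f := by
  obtain ⟨K, hK, hKr⟩ := exists_bound_sqrt h
  have hπ := Real.pi_pos
  refine core (l := atTop) (k := fun n => trunc (kV n)) (h := fun n => (√(n : ℝ))⁻¹) ?_
    tendsto_inv_sqrt ?_ ?_ ?_ ?_ ?_ hfm hB hα hK ?_
  · filter_upwards [eventually_gt_atTop 0] with n hn
    have : (0 : ℝ) < n := by exact_mod_cast hn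
    positivity
  · exact Eventually.of_forall fun n s => trunc_nonneg (fun s _ => kV_nonneg n s) s
  · exact Eventually.of_forall fun n => trunc_integrable (kV_continuous n)
  · exact Eventually.of_forall fun n => by rw [trunc_mass, kV_mass]
  · intro δ hδ
    have hlim : Tendsto (fun n : ℕ => 2 * π * (n * Real.exp (-(n / π ^ 2) * δ ^ 2))) atTop (𝓝 0) := by
      have h1 : Tendsto (fun n : ℕ => (n : ℝ) ^ (1 : ℝ) * Real.exp (-(δ ^ 2 / π ^ 2) * (n : ℝ)))
          atTop (𝓝 0) :=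
        (tendsto_rpow_mul_exp_neg_mul_atTop_nhds_zero 1 (δ ^ 2 / π ^ 2) (by positivity)).comp
          tendsto_natCast_atTop_atTop
      have h2 := h1.const_mul (2 * π)
      rw [mul_zero] at h2
      refine h2.congr fun n => ?_
      rw [Real.rpow_one]
      congr 3
      ring
    refine squeeze_zero' (Eventually.of_forall fun n =>
      integral_nonneg fun s => trunc_nonneg (fun s _ => kV_nonneg n s) s) ?_ hlim
    filter_upwards [eventually_gt_atTop 0] with n hn
    refine trunc_tail (kV_continuous n) (by positivity) fun s hs hsδ => (kV_le n hs).trans ?_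
    have hδs : δ ^ 2 ≤ s ^ 2 := by
      rw [← sq_abs s]
      exact pow_le_pow_left₀ hδ.le hsδ 2
    refine mul_le_mul (cV_le hn) ?_ (Real.exp_pos _).le (by positivity)
    rw [Real.exp_le_exp]
    have : (0 : ℝ) ≤ n / π ^ 2 := by positivity
    nlinarith
  · intro C hC
    refine ⟨(π * √π)⁻¹ * Real.exp (-(C ^ 2 / 2)), by positivity, ?_⟩
    have hsmall : ∀ᶠ n : ℕ in atTop, C * (√(n : ℝ))⁻¹ < 1 := by
      have : Tendsto (fun n : ℕ => C * (√(n : ℝ))⁻¹) atTop (𝓝 0) := by
        simpa using tendsto_inv_sqrt.const_mul C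
      exact this.eventually (gt_mem_nhds one_pos)
    filter_upwards [eventually_gt_atTop 0, hsmall] with n hn h2 s hs
    have hn' : (0 : ℝ) < n := by exact_mod_cast hn
    have hs1 : |s| < 1 := hs.trans_lt h2
    have hs1' := abs_lt.mp hs1
    have hπ3 := Real.pi_gt_three
    have hmem : s ∈ Set.Ioc (-π) π := ⟨by linarith, by linarith⟩
    unfold trunc
    rw [Set.indicator_of_mem hmem, div_inv_eq_mul]
    have hns : n * s ^ 2 ≤ C ^ 2 := by
      have h2 : |s| ^ 2 ≤ (C * (√(n : ℝ))⁻¹) ^ 2 := pow_le_pow_left₀ (abs_nonneg s) hs 2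
      rw [sq_abs, mul_pow, inv_pow, Real.sq_sqrt hn'.le] at h2
      calc n * s ^ 2 ≤ n * (C ^ 2 * (n : ℝ)⁻¹) := mul_le_mul_of_nonneg_left h2 hn'.le
        _ = C ^ 2 := by field_simp
    have hcos : Real.exp (-(s ^ 2 / 4)) ≤ Real.cos (s / 2) := by
      have h3 := Real.one_sub_sq_div_two_le_cos (x := s / 2)
      have h4 : Real.exp (-(s ^ 2 / 4)) ≤ 1 - s ^ 2 / 8 := by
        have hy : s ^ 2 < 1 := by
          rw [← sq_abs]
          nlinarith [abs_nonneg s]
        have h5 := Real.add_one_le_exp (s ^ 2 / 4)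
        rw [Real.exp_neg, inv_le_comm₀ (Real.exp_pos _) (by nlinarith)]
        refine le_trans ?_ h5
        rw [inv_le_iff_one_le_mul₀ (by nlinarith)]
        nlinarith [sq_nonneg s]
      refine h4.trans (le_trans (le_of_eq ?_) h3)
      ring
    have hpow : Real.exp (-(C ^ 2 / 2)) ≤ Real.cos (s / 2) ^ (2 * n) := by
      calc Real.exp (-(C ^ 2 / 2)) ≤ Real.exp (-(s ^ 2 / 4)) ^ (2 * n) := by
            rw [← Real.exp_nat_mul, Real.exp_le_exp]
            push_cast
            nlinarith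
        _ ≤ _ := pow_le_pow_left₀ (Real.exp_pos _).le hcos _
    calc (π * √π)⁻¹ * Real.exp (-(C ^ 2 / 2)) * √n
        = √n / (π * √π) * Real.exp (-(C ^ 2 / 2)) := by ring
      _ ≤ cV n * 4 ^ n * Real.cos (s / 2) ^ (2 * n) :=
          mul_le_mul (cV_ge hn) hpow (Real.exp_pos _).le (by have := cV_pos n; positivity)
      _ = kV n s := by
          unfold kV
          rw [mul_pow, pow_mul 2 2 n]
          norm_num
          ring
  · filter_upwards [hKr] with n hn
    have : opV n f = fun x => ∫ s, f (x + s) * trunc (kV n) s := by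
      funext x
      unfold opV
      rw [trunc_integral]
      rfl
    rwa [this] at hn

end vallee

/-- **Negative answer to Q1 of MP_7489b4_an.** Let `α > 0` and let `f` be a bounded (Lebesgue)
measurable function on `ℝ` that satisfies (W), or is `2π`-periodic and satisfies (P) or (V). Then `f` is
continuous; in particular it has no point of discontinuity of the second kind. -/
theorem result (α : ℝ) (hα : 0 < α) (f : ℝ → ℝ) (hfm : AEStronglyMeasurable f volume)
    (hfb : ∃ B : ℝ, ∀ x, |f x| ≤ B)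
    (h : CondW α f ∨ (Function.Periodic f (2 * π) ∧ (CondP α f ∨ CondV α f))) :
    Continuous f := by
  obtain ⟨B, hB⟩ := hfb
  rcases h with h | ⟨-, h | h⟩
  · exact caseW hfm hB hα h
  · exact caseP hfm hB hα h
  · exact caseV hfm hB hα h

end Pool.Agent.Results.MP_7489b4_an.ForcedContinuity
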